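import Mathlib

namespace Pool.Agent.X13
theorem warm : (1:ℕ) + 1 = 2 := by norm_num
end Pool.Agent.X13
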